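import Pool.Agent.H9.CA.TarG
import Pool.Agent.H68.SF.LBas

/-! MP_ceca85_lc, row GC of the module board. -/

open Ordinal Order Set
open scoped ZFSet

namespace CAA

open SF

theorem tr0_H14 : (∅ : V).IsTransitive := fun x hx => absurd hx (ZFSet.notMem_empty x)

theorem dpair_H14 {A : V} {γ : Ordinal.{0}} (hγ : IsSuccLimit γ) {x y : V} (hx : x ∈ LA A γ)
    (hy : y ∈ LA A γ) : ({x, y} : V) ∈ LA A γ := by
  obtain ⟨α, hα, hx⟩ := (mem_Lh_limit hγ).1 hx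
  obtain ⟨β, hβ, hy⟩ := (mem_Lh_limit hγ).1 hy
  have h1 : succ (max α β) < γ := hγ.succ_lt (max_lt hα hβ)
  refine (mem_Lh_limit hγ).2 ⟨succ (max α β), h1, ?_⟩
  exact pair_mem_Lh tr0_H14 (lt_succ _) (Lh_mono (le_max_left _ _) hx)
    (Lh_mono (le_max_right _ _) hy)

theorem opair_H14 {A : V} {γ : Ordinal.{0}} (hγ : IsSuccLimit γ) {x y : V} (hx : x ∈ LA A γ)
    (hy : y ∈ LA A γ) : ZFSet.pair x y ∈ LA A γ := by
  have h1 : ({x, x} : V) ∈ LA A γ := dpair_H14 hγ hx hx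
  have e : ({x, x} : V) = {x} := by
    ext z
    simp
  rw [e] at h1
  exact dpair_H14 hγ h1 (dpair_H14 hγ hx hy)

theorem pf_GC : T_GC := by
  intro γ hγ hω
  refine ⟨?_, ?_, ?_⟩
  · exact Lh_isTransitive tr0_H14 γ
  · exact ord_mem_Lh tr0_H14 hω
  · intro x hx y hy
    exact opair_H14 hγ hx hy

end CAA
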