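import Pool.Agent.H14.CA.GC

/-! MP_ceca85_lc, row GA of the module board: the ground model. -/

open Ordinal Order Set
open scoped ZFSet

namespace CAA

open SF

theorem rank_LA_H14 {A : V} {α : Ordinal.{0}} {x : V} (hx : x ∈ LA A α) : x.rank < α := by
  induction α using WellFoundedLT.induction generalizing x with
  | _ α ih =>
    rcases mem_Lh.1 hx with h | ⟨β, hβ, h⟩
    · exact absurd h (ZFSet.notMem_empty x)
    · refine lt_of_le_of_lt ?_ hβ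
      rw [ZFSet.rank_le_iff]
      intro y hy
      exact ih β hβ (Def_sub h hy)

theorem LAtr_H14 (A : V) (α : Ordinal.{0}) : (LA A α).IsTransitive :=
  Lh_isTransitive tr0_H14 α

theorem LAmono_H14 (A : V) {α β : Ordinal.{0}} (h : α ≤ β) : LA A α ⊆ LA A β := Lh_mono h

theorem LAmem_H14 (A : V) {α β : Ordinal.{0}} (h : α < β) : LA A α ∈ LA A β := Lh_mem h

theorem ordLA_H14 (A : V) {α β : Ordinal.{0}} (h : α < β) : α.toZFSet ∈ LA A β :=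
  ord_mem_Lh tr0_H14 h

theorem ordsub_H14 (A : V) (α : Ordinal.{0}) : α.toZFSet ⊆ LA A α := by
  intro x hx
  obtain ⟨β, hβ, rfl⟩ := Ordinal.mem_toZFSet_iff.1 hx
  exact ordLA_H14 A hβ

/-- the sequence of the levels -/
noncomputable def Hs_H14 (κ : Ordinal.{0}) : V := resS κ.toZFSet fun x => LAS ∅ x

theorem appHs_H14 {κ α : Ordinal.{0}} (h : α < κ) : app (Hs_H14 κ) α.toZFSet = LA ∅ α := by
  unfold Hs_H14
  rw [app_resS (Ordinal.mem_toZFSet_iff.2 ⟨α, h, rfl⟩), LAS_ord]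

theorem memHs_H14 {M : V → Prop} (k : ZFm M) {κ : Ordinal.{0}} (hκ : M κ.toZFSet) :
    M (Hs_H14 κ) := by
  have h1 := (Tm.resS (f := fun _ v => v 0) (g := fun _ v => LAS ∅ (v 0)) (Tm.var 0)
    (Tm.LAS Tm.empty (Tm.var 0))).1 M k (fun _ => κ.toZFSet) (fun _ => hκ)
  exact h1

/-- consequences of the chain theorem for the levels -/
theorem chain_H14 (hDM : T_DM) {κ θ : Ordinal.{0}} (kM : ZFCm (· ∈ LA ∅ θ)) (hω : ω < κ)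
    (hκ : IsSuccLimit κ) (hθ : κ < θ)
    (reg : ∀ y ∈ LA ∅ κ, ∀ f ∈ LA ∅ θ, ZFSet.IsFunc y κ.toZFSet f →
      ∃ γ < κ, ∀ u ∈ y, app f u ∈ γ.toZFSet) :
    ZFm (· ∈ LA ∅ κ) ∧ ∀ ρ < κ, ∃ ρ', ρ < ρ' ∧ ρ' < κ ∧ ZFm (· ∈ LA ∅ ρ') := by
  have hκM : κ.toZFSet ∈ LA ∅ θ := ordLA_H14 ∅ hθ
  have h := hDM (· ∈ LA ∅ θ) kM κ (Hs_H14 κ) (LA ∅ κ) (memHs_H14 kM.toZFm hκM) hκM hω hκ
    (fun α hα => by rw [appHs_H14 hα]; exact LAtr_H14 ∅ α)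
    (fun α hα => by
      rw [appHs_H14 hα, appHs_H14 (hκ.succ_lt hα)]
      exact Def_Lh_sub (lt_succ α))
    (fun α β hαβ hβ => by
      rw [appHs_H14 (lt_of_le_of_lt hαβ hβ), appHs_H14 hβ]
      exact LAmono_H14 ∅ hαβ)
    (fun γ hγκ hγ x hx => by
      rw [appHs_H14 hγκ] at hx
      obtain ⟨β, hβ, h1⟩ := (mem_Lh_limit hγ).1 hx
      refine ⟨β, hβ, ?_⟩
      rw [appHs_H14 (hβ.trans hγκ)]
      exact h1)
    (fun α hα f hf hfun => by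
      rw [appHs_H14 hα] at hfun ⊢
      exact reg _ (LAmem_H14 ∅ hα) f hf hfun)
    (fun x => by
      constructor
      · intro hx
        obtain ⟨β, hβ, h1⟩ := (mem_Lh_limit hκ).1 hx
        refine ⟨β, hβ, ?_⟩
        rw [appHs_H14 hβ]
        exact h1
      · rintro ⟨β, hβ, h1⟩
        rw [appHs_H14 hβ] at h1
        exact LAmono_H14 ∅ hβ.le h1)
  refine ⟨h.2.2.1, fun ρ hρ => ?_⟩
  obtain ⟨β, h1, h2, -, h3⟩ := h.2.1 ρ hρ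
  rw [appHs_H14 h2] at h3
  exact ⟨β, h1, h2, h3⟩

/-- the first level which contains `y`, as a subset of `κ` -/
noncomputable def fl_H14 (κ y : V) : V := κ.sep fun z => ¬ y ∈ LAS ∅ z

theorem fl_eq_H14 {κ : Ordinal.{0}} (hκ : IsSuccLimit κ) {y : V} (hy : y ∈ LA ∅ κ) :
    ∃ γ < κ, fl_H14 κ.toZFSet y = γ.toZFSet ∧ y ∈ LA ∅ γ := by
  have hex : ∃ γ, γ < κ ∧ y ∈ LA ∅ γ := by
    obtain ⟨β, hβ, h1⟩ := (mem_Lh_limit hκ).1 hy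
    exact ⟨β, hβ, h1⟩
  obtain ⟨γ, ⟨h1, h2⟩, hmin⟩ := WellFounded.has_min (α := Ordinal.{0}) wellFounded_lt
    {γ | γ < κ ∧ y ∈ LA ∅ γ} hex
  refine ⟨γ, h1, ?_, h2⟩
  ext z
  unfold fl_H14
  rw [ZFSet.mem_sep, Ordinal.mem_toZFSet_iff, Ordinal.mem_toZFSet_iff]
  constructor
  · rintro ⟨⟨a, ha, rfl⟩, h3⟩
    rw [LAS_ord] at h3
    refine ⟨a, ?_, rfl⟩
    by_contra h4
    exact h3 (LAmono_H14 ∅ (not_lt.1 h4) h2)
  · rintro ⟨a, ha, rfl⟩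
    refine ⟨⟨a, ha.trans h1, rfl⟩, ?_⟩
    rw [LAS_ord]
    intro h4
    exact hmin a ⟨ha.trans h1, h4⟩ ha

/-- the function of the first levels, on a set -/
theorem flM_H14 {M : V → Prop} (k : ZFm M) {κ x : V} (hκ : M κ) (hx : M x) :
    M (resS x fun y => fl_H14 κ y) := by
  have h0 : Tm ZFm (fun _ v => fl_H14 (v 2) (v 0)) := by
    refine (Tm.sep (R := fun _ v => ¬ v 1 ∈ LAS ∅ (v 0)) (f := fun _ v => v 2)
      (Dfb.mem (Tm.var 1) (Tm.LAS Tm.empty (Tm.var 0))).not (Tm.var 2)).congr ?_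
    intro M k v hv
    rfl
  have h1 := (Tm.resS (f := fun _ v => v 0) (g := fun _ v => fl_H14 (v 2) (v 0)) (Tm.var 0)
    h0).1 M k (cons x fun _ => κ) (In.cons (fun _ => hκ) hx)
  exact h1

/-- a set of elements of `L_κ` whose functions to `κ` are bounded is a subset of an earlier level -/
theorem bdd_H14 {M : V → Prop} (k : ZFm M) {κ : Ordinal.{0}} (hκM : M κ.toZFSet)
    (hκ : IsSuccLimit κ) {x : V} (hx : M x) (hsub : x ⊆ LA ∅ κ)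
    (reg : ∀ f, M f → ZFSet.IsFunc x κ.toZFSet f → ∃ γ < κ, ∀ u ∈ x, app f u ∈ γ.toZFSet) :
    ∃ γ < κ, x ⊆ LA ∅ γ := by
  obtain ⟨γ, hγ, h⟩ := reg _ (flM_H14 k hκM hx) (isFunc_resS _ _ _ fun y hy => by
    obtain ⟨δ, hδ, h1, -⟩ := fl_eq_H14 hκ (hsub hy)
    rw [h1]
    exact Ordinal.mem_toZFSet_iff.2 ⟨δ, hδ, rfl⟩)
  refine ⟨γ, hγ, fun y hy => ?_⟩
  have h1 := h y hy
  rw [app_resS hy] at h1
  obtain ⟨δ, hδ, h2, h3⟩ := fl_eq_H14 hκ (hsub hy)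
  rw [h2, Ordinal.mem_toZFSet_iff] at h1
  obtain ⟨ε, hε, h4⟩ := h1
  have h5 : ε = δ := Ordinal.toZFSet_injective h4
  subst h5
  exact LAmono_H14 ∅ hε.le h3

/-- the set of the subsets of `y` in a set `N` -/
theorem subsM_H14 {M : V → Prop} (k : ZFm M) {N y : V} (hN : M N) (hy : M y) :
    M (N.sep fun x => x ⊆ y) := by
  have h1 := (Tm.sep (R := fun _ v => v 0 ⊆ v 2) (f := fun _ v => v 0)
    (Dfb.subset (Tm.var 0) (Tm.var 2)) (Tm.var 0)).1 M k (cons N fun _ => y)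
    (In.cons (fun _ => hy) hN)
  exact h1

theorem pf_GA (hGB : T_GB) (hDF : T_DF) (hDH : T_DH) (hDM : T_DM) (hDN : T_DN) (hDO : T_DO) :
    T_GA := by
  rintro ⟨κ₀, χ₀, θ, hctb, hz, hord, hlim, hunb, hκχ₀, hχθ₀, hin₀, hns₀⟩
  -- the least inaccessible
  obtain ⟨κ, hin, hmin⟩ := WellFounded.has_min (α := Ordinal.{0}) wellFounded_lt
    {κ | Inac (· ∈ LA ∅ θ) κ} ⟨κ₀, hin₀⟩
  have hin : Inac (· ∈ LA ∅ θ) κ := hin
  have hκκ₀ : κ ≤ κ₀ := not_lt.1 (hmin κ₀ hin₀)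
  have hκθ : κ < θ := (hord κ).1 hin.mem
  have hκ₀θ : κ₀ < θ := (hord κ₀).1 hin₀.mem
  obtain ⟨N, hN, hVN, -, hκl, -, hNsub, -, hNreg, -⟩ := hDO (· ∈ LA ∅ θ) κ hz hin
  have hk := hz.toZFm
  have hCM : LA ∅ κ ∈ LA ∅ θ := LAmem_H14 ∅ hκθ
  have hCg : Gd (LA ∅ κ) := pf_GC κ hκl hin.unc
  obtain ⟨-, DF2, DF3, -, -, -, DF7, -, DF9, -⟩ := hDF (· ∈ LA ∅ θ) hk (LA ∅ κ) hCM hCg
  -- the least non-image
  have hne₀ : ¬ Sm (· ∈ LA ∅ θ) (LA ∅ κ₀) χ₀.toZFSet := by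
    rintro (h | ⟨f, hf, h⟩)
    · have h1 : κ₀.toZFSet ∈ χ₀.toZFSet := Ordinal.mem_toZFSet_iff.2 ⟨κ₀, hκχ₀, rfl⟩
      rw [h] at h1
      exact ZFSet.notMem_empty _ h1
    · exact hns₀ f hf h
  have hne : ¬ Sm (· ∈ LA ∅ θ) (LA ∅ κ) χ₀.toZFSet := fun h =>
    hne₀ (DF9 (LA ∅ κ₀) (LAmem_H14 ∅ hκ₀θ) (LAmono_H14 ∅ hκκ₀) _ h)
  obtain ⟨χ, ⟨hχθ, hχns⟩, hχmin⟩ := WellFounded.has_min (α := Ordinal.{0}) wellFounded_lt
    {χ | χ < θ ∧ ¬ Sm (· ∈ LA ∅ θ) (LA ∅ κ) χ.toZFSet} ⟨χ₀, hχθ₀, hne⟩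
  have hχS : ∀ δ < χ, Sm (· ∈ LA ∅ θ) (LA ∅ κ) δ.toZFSet := by
    intro δ hδ
    by_contra h
    exact hχmin δ ⟨hδ.trans hχθ, h⟩ hδ
  obtain ⟨DH1, DH2, hχl⟩ := hDH (· ∈ LA ∅ θ) hz (LA ∅ κ) hCM hCg χ ((hord χ).2 hχθ) hχS hχns
  have hκχ : κ < χ := by
    rcases lt_trichotomy κ χ with h | h | h
    · exact h
    · exfalso
      refine hχns ?_
      rw [← h]
      exact DF2 _ hin.mem (ordsub_H14 ∅ κ)
    · exact absurd (DH1 χ (ordLA_H14 ∅ h)) (lt_irrefl χ)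
  have hωχ : ω < χ := hin.unc.trans hκχ
  -- regularity of κ
  have hrk : ∀ y ∈ LA ∅ κ, y ∈ N := fun y hy =>
    (hVN y).2 ⟨LAmono_H14 ∅ hκθ.le hy, rank_LA_H14 hy⟩
  have regκ : ∀ y ∈ LA ∅ κ, ∀ f ∈ LA ∅ θ, ZFSet.IsFunc y κ.toZFSet f →
      ∃ γ < κ, ∀ u ∈ y, app f u ∈ γ.toZFSet := fun y hy f hf h => hNreg y (hrk y hy) f hf h
  obtain ⟨zκ, unbκ⟩ := chain_H14 hDM hz hin.unc hκl hκθ regκ
  have subκ := hDN κ θ hz hin.unc hκθ hunb regκ zκ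
  -- V_κ is L_κ
  have key : ∀ x, x ∈ LA ∅ θ → x.rank < κ → x ⊆ LA ∅ κ → ∃ γ < κ, x ⊆ LA ∅ γ := by
    intro x hx hr hsub
    exact bdd_H14 hk hin.mem hκl hx hsub fun f hf h => hNreg x ((hVN x).2 ⟨hx, hr⟩) f hf h
  have hV : ∀ x, x ∈ LA ∅ θ → x.rank < κ → x ∈ LA ∅ κ := by
    intro x
    induction x using ZFSet.inductionOn with
    | _ x ih =>
      intro hx hr
      obtain ⟨γ, hγ, h1⟩ := key x hx hr fun y hy =>
        ih y hy (hk.trans x hx y hy) ((ZFSet.rank_lt_of_mem hy).trans hr)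
      exact subκ (LA ∅ γ) (LAmem_H14 ∅ hγ) x hx h1
  -- regularity of χ
  have regχ : ∀ y ∈ LA ∅ χ, ∀ f ∈ LA ∅ θ, ZFSet.IsFunc y χ.toZFSet f →
      ∃ γ < χ, ∀ u ∈ y, app f u ∈ γ.toZFSet := by
    intro y hy f hf h
    obtain ⟨δ, hδ, h1⟩ := (mem_Lh_limit hχl).1 hy
    have hyM : y ∈ LA ∅ θ := LAmono_H14 ∅ hχθ.le hy
    have h2 : Sm (· ∈ LA ∅ θ) (LA ∅ κ) (LA ∅ δ) :=
      hGB (· ∈ LA ∅ θ) hz (LA ∅ κ) hCM hCg δ ((hord δ).2 (hδ.trans hχθ)) (hχS δ hδ)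
    have h3 : Sm (· ∈ LA ∅ θ) (LA ∅ κ) y := DF3 y (LA ∅ δ) hyM h2 (LAtr_H14 ∅ δ y h1)
    have h4 : dm f = y := by
      ext u
      rw [mem_dm]
      constructor
      · rintro ⟨w, hw⟩
        exact ((pair_mem_iff_app h).1 hw).1
      · intro hu
        exact ⟨_, pair_app_mem h hu⟩
    have h5 := DF7 y f h3 hf (svl_of_isFunc h) h4
    have h6 : rg f ∈ LA ∅ θ :=
      (Tm.rg (Tm.var 0)).1 (· ∈ LA ∅ θ) hk (fun _ => f) (fun _ => hf)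
    have h7 : rg f ⊆ χ.toZFSet := by
      intro w hw
      obtain ⟨u, hu⟩ := mem_rg.1 hw
      obtain ⟨hu1, rfl⟩ := (pair_mem_iff_app h).1 hu
      exact app_mem h hu1
    obtain ⟨γ, hγ, h8⟩ := DH2 _ h6 h5 h7
    exact ⟨γ, hγ, fun u hu => h8 (mem_rg.2 ⟨u, pair_app_mem h hu⟩)⟩
  obtain ⟨zχ, -⟩ := chain_H14 hDM hz hωχ hχl hχθ regχ
  have subχ := hDN χ θ hz hωχ hχθ hunb regχ zχ
  refine ⟨κ, χ, θ, ⟨hctb, hz, hord, hlim, hκχ, hχθ, hin, ?_, zκ, zχ, unbκ, hunb, regκ, regχ,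
    subκ, subχ, ?_, ?_⟩⟩
  · intro x
    constructor
    · intro hx
      exact ⟨LAmono_H14 ∅ hκθ.le hx, rank_LA_H14 hx⟩
    · rintro ⟨h1, h2⟩
      exact hV x h1 h2
  · intro y hy
    have hyM : y ∈ LA ∅ θ := LAmono_H14 ∅ hκθ.le hy
    have hPM : (N.sep fun x => x ⊆ y) ∈ LA ∅ θ := subsM_H14 hk hN hyM
    have hPr : (N.sep fun x => x ⊆ y).rank < κ := by
      refine lt_of_le_of_lt ?_ (hκl.succ_lt (rank_LA_H14 hy))
      rw [ZFSet.rank_le_iff]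
      intro x hx
      exact lt_succ_iff.2 (ZFSet.rank_mono (ZFSet.mem_sep.1 hx).2)
    obtain ⟨ρ, hρ, h1⟩ := key _ hPM hPr (by
      intro x hx
      obtain ⟨h2, h3⟩ := ZFSet.mem_sep.1 hx
      exact hV x ((hVN x).1 h2).1 ((hVN x).1 h2).2)
    refine ⟨ρ, hρ, fun x hx hxy => h1 (ZFSet.mem_sep.2 ⟨?_, hxy⟩)⟩
    exact hNsub y (hrk y hy) x hx hxy
  · intro β hβ hωβ hreg
    by_contra hcon
    push Not at hcon
    refine hmin β ⟨?_, hωβ, hreg, ?_⟩ hβ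
    · exact (hord β).2 (hβ.trans hκθ)
    · intro l hl
      obtain ⟨τ, hτ, f, hf, h⟩ := hcon l hl
      exact ⟨τ, hτ, f, hf, fun x hx hxl => h x hx hxl⟩

end CAA
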